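import Pool.Agent.MVD.StmtsLoc

/-!
# Squad MVD, row GFE (helper39)
-/

set_option autoImplicit false

namespace Pool.Agent.MVD.H39

open Pool.Agent.MVD Pool.Agent.Helper14_MV Pool.Agent.Helper2_MV

variable {β : FIC}

/-- the places `P` with their separators -/
def Am (P : List ℕ) : List ℕ := P.flatMap (fun i => [3 * i + 1, 3 * i + 5])

theorem bw_am (P L : List ℕ) :
    Bw (P.map (fun e => e + 1)) (fun r => if r = 0 then L else [3 * (r - 1) + 1]) = Am P := by
  unfold Bw Am
  rw [List.flatMap_map]
  refine List.flatMap_congr fun i _ => ?_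
  change (if i + 1 = 0 then L else [3 * (i + 1 - 1) + 1]) ++ [3 * (i + 1) + 2] = _
  rw [if_neg (Nat.succ_ne_zero i), Nat.add_sub_cancel]
  rfl

theorem wm_eq (P Q L : List ℕ) : Wm P Q L = Am P ++ (L ++ 2 :: Am Q) := by
  unfold Wm
  rw [show Bw (P.map (fun e => e + 1) ++ 0 :: Q.map (fun e => e + 1))
      (fun r => if r = 0 then L else [3 * (r - 1) + 1]) =
      Bw (P.map (fun e => e + 1)) (fun r => if r = 0 then L else [3 * (r - 1) + 1]) ++
      ((L ++ [2]) ++ Bw (Q.map (fun e => e + 1))
        (fun r => if r = 0 then L else [3 * (r - 1) + 1])) by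
      unfold Bw
      rw [List.flatMap_append, List.flatMap_cons]
      rfl, bw_am, bw_am]
  simp

theorem am_append (P Q : List ℕ) : Am (P ++ Q) = Am P ++ Am Q := by
  unfold Am
  rw [List.flatMap_append]

theorem mem_am {P : List ℕ} {c : ℕ} : c ∈ Am P ↔ ∃ i ∈ P, c = 3 * i + 1 ∨ c = 3 * i + 5 := by
  unfold Am
  rw [List.mem_flatMap]
  constructor
  · rintro ⟨i, hi, h⟩
    simp only [List.mem_cons, List.not_mem_nil, or_false] at h
    exact ⟨i, hi, h⟩
  · rintro ⟨i, hi, h⟩
    exact ⟨i, hi, by simp only [List.mem_cons, List.not_mem_nil, or_false]; exact h⟩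

/-- `v` before, `yyy` to the left over `v` -/
theorem cb_ctx (h : CB β) {p : List ℕ} (q : List ℕ) {v : ℕ} (hv : v ∈ p) :
    RR β (p ++ v :: 0 :: 0 :: 0 :: q) (p ++ 0 :: 0 :: 0 :: v :: q) := by
  obtain ⟨p1, p2, rfl⟩ := List.append_of_mem hv
  have h1 := RR.sub (fun c => if c = 0 then [v] else if c = 2 then p2 else [0]) h
  have h2 := RR.append (RR.refl p1) (RR.append h1 (RR.refl q))
  simp only [List.flatMap_cons, List.flatMap_nil, if_true, if_false, OfNat.ofNat_ne_zero,
    OfNat.ofNat_eq_ofNat, Nat.reduceEqDiff, List.append_nil, List.append_assoc,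
    List.cons_append, List.nil_append] at h2
  simp only [List.append_assoc, List.cons_append]
  exact h2

/-- the letters `0`, `v`, `2` -/
def pf (v : ℕ) (c : ℕ) : Bool := decide (c = 0 ∨ c = v ∨ c = 2)

theorem filter_nil_of {v : ℕ} {l : List ℕ} (h : ∀ c ∈ l, c ≠ 0 ∧ c ≠ v ∧ c ≠ 2) :
    l.filter (pf v) = [] := by
  rw [List.filter_eq_nil_iff]
  intro c hc hcon
  unfold pf at hcon
  rw [decide_eq_true_iff] at hcon
  obtain ⟨h1, h2, h3⟩ := h c hc
  rcases hcon with h | h | h
  · exact h1 h
  · exact h2 h
  · exact h3 h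

theorem filter_am {i : ℕ} {Q : List ℕ} (hi : i ∉ Q) : (Am Q).filter (pf (3 * i + 1)) = [] := by
  apply filter_nil_of
  intro c hc
  obtain ⟨j, hj, h⟩ := mem_am.mp hc
  have hij : j ≠ i := fun h => hi (h ▸ hj)
  refine ⟨?_, ?_, ?_⟩ <;> omega

theorem filter_am_mem {i : ℕ} {Q : List ℕ} (hnd : Q.Nodup) (hi : i ∈ Q) :
    (Am Q).filter (pf (3 * i + 1)) = [3 * i + 1] := by
  obtain ⟨Q1, Q2, rfl⟩ := List.append_of_mem hi
  have h1 : i ∉ Q1 := fun h => by
    have := List.disjoint_of_nodup_append hnd
    exact this h List.mem_cons_self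
  have h2 : i ∉ Q2 := by
    have := (List.nodup_append.1 hnd).2.1
    rw [List.nodup_cons] at this
    exact this.1
  rw [am_append, List.filter_append, filter_am h1]
  have e : Am (i :: Q2) = (3 * i + 1) :: (3 * i + 5) :: Am Q2 := by
    unfold Am
    rw [List.flatMap_cons]
    rfl
  rw [e, List.filter_cons_of_pos (by unfold pf; simp), List.filter_cons_of_neg (by
    unfold pf
    rw [decide_eq_true_iff]
    omega), filter_am h2]
  rfl

theorem gfe (irl : IrlStmt) (ctx : CtxStmt) : GfeStmt := by
  intro β P Q γ g1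
  induction g1 using List.reverseRecOn with
  | nil =>
    intro g2 hc hcb hcan _ hγ hU
    rw [List.nil_append] at hγ hU
    refine β.trans hU (RR.symm ?_)
    have hsf : ∀ L : List ℕ, (∀ a ∈ L, a % 3 ≠ 2) → ∀ r ∈ P.map (fun e => e + 1) ++
        0 :: Q.map (fun e => e + 1), SFr ((fun r => if r = 0 then L else [3 * (r - 1) + 1]) r) := by
      intro L hL r _ a ha
      by_cases hr : r = 0
      · simp only [hr, if_true] at ha
        exact hL a ha
      · simp only [hr, if_false, List.mem_singleton] at ha
        omega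
    have hg2 : ∀ a ∈ g2, a % 3 ≠ 2 := by
      intro a ha
      rename_i hp
      exact hcan.sf a (hp.mem_iff.mp (by simpa using ha))
    have hnd : (P.map (fun e => e + 1) ++ 0 :: Q.map (fun e => e + 1)).Nodup := by
      have h1 := hcan.nd
      rw [List.nodup_append] at h1
      rw [List.nodup_append]
      refine ⟨h1.1.map (fun _ _ h => Nat.succ_injective h), ?_, ?_⟩
      · rw [List.nodup_cons]
        refine ⟨?_, h1.2.1.map (fun _ _ h => Nat.succ_injective h)⟩
        rw [List.mem_map]
        rintro ⟨a, _, h⟩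
        omega
      · intro a ha b hb hab
        rw [List.mem_map] at ha
        obtain ⟨a', ha', rfl⟩ := ha
        rw [List.mem_cons, List.mem_map] at hb
        rcases hb with hb | ⟨b', hb', rfl⟩
        · omega
        · exact h1.2.2 a' ha' b' hb' (by omega)
    have h3 := irl β (P.map (fun e => e + 1) ++ 0 :: Q.map (fun e => e + 1))
      (fun r => if r = 0 then γ else [3 * (r - 1) + 1])
      (fun r => if r = 0 then g2 else [3 * (r - 1) + 1])
      (fun r => if r = 0 then [0, 0, 0] else []) (fun _ => []) [] [] [] []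
      hnd (hsf γ hcan.sf) (hsf g2 hg2) (by intro a ha; simp at ha) (by intro a ha; simp at ha)
      (by
        rw [List.append_nil, List.append_nil]
        exact hγ)
    have e : ∀ L : List ℕ, (fun r => (if r = 0 then [0, 0, 0] else []) ++
        (if r = 0 then L else [3 * (r - 1) + 1])) =
        fun r => if r = 0 then 0 :: 0 :: 0 :: L else [3 * (r - 1) + 1] := by
      intro L
      funext r
      by_cases hr : r = 0
      · simp [hr]
      · simp [hr]
    simp only [List.append_nil] at h3
    rw [e, e] at h3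
    exact h3
  | append_singleton g1 v ih =>
    intro g2 hc hcb hcan hp hγ hU
    have hp' : (g1 ++ (v :: g2)).Perm γ := by
      rw [show g1 ++ (v :: g2) = g1 ++ [v] ++ g2 by simp]
      exact hp
    have e0 : Wm P Q (g1 ++ [v] ++ g2) = Wm P Q (g1 ++ (v :: g2)) := by
      rw [show g1 ++ (v :: g2) = g1 ++ [v] ++ g2 by simp]
    rw [e0] at hγ
    refine ih (v :: g2) hc hcb hcan hp' hγ (β.trans hU ?_)
    have hvγ : v ∈ γ := hp'.mem_iff.mp (by simp)
    have h0γ : ∀ a ∈ γ, a ≠ 0 ∧ a ≠ 2 := by
      intro a ha
      constructor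
      · rintro rfl
        have := (hcan.lc 0 ha rfl).2
        omega
      · rintro rfl
        exact hcan.sf 2 ha rfl
    rw [wm_eq, wm_eq]
    rw [show Am P ++ (g1 ++ [v] ++ 0 :: 0 :: 0 :: g2 ++ 2 :: Am Q) =
        (Am P ++ g1) ++ v :: 0 :: 0 :: 0 :: (g2 ++ 2 :: Am Q) by simp,
      show Am P ++ (g1 ++ 0 :: 0 :: 0 :: v :: g2 ++ 2 :: Am Q) =
        (Am P ++ g1) ++ 0 :: 0 :: 0 :: v :: (g2 ++ 2 :: Am Q) by simp]
    have hcnt : g1.count v + (g2.count v + 1) = γ.count v := by
      rw [← hp'.count_eq, List.count_append, List.count_cons_self]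
    -- `v` to the right over the second and third `0`
    have hS : ∀ (p q : List ℕ), v ∈ q → RR β (p ++ 0 :: v :: 0 :: 0 :: q)
        (p ++ 0 :: 0 :: 0 :: v :: q) := by
      intro p q hv
      have h1 := (ctx β).2.1 hc.s2 (p ++ [0]) (0 :: q) 0 v (by simp) (List.mem_cons_of_mem _ hv)
      have h2 := (ctx β).2.1 hc.s2 (p ++ [0, 0]) q 0 v (by simp) hv
      rw [show p ++ [0] ++ v :: 0 :: 0 :: q = p ++ 0 :: v :: 0 :: 0 :: q by simp,
        show p ++ [0] ++ 0 :: v :: 0 :: q = p ++ 0 :: 0 :: v :: 0 :: q by simp] at h1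
      rw [show p ++ [0, 0] ++ v :: 0 :: q = p ++ 0 :: 0 :: v :: 0 :: q by simp,
        show p ++ [0, 0] ++ 0 :: v :: q = p ++ 0 :: 0 :: 0 :: v :: q by simp] at h2
      exact β.trans h1.symm h2.symm
    have hcase : v % 3 = 0 ∨ v % 3 = 1 := by
      have := hcan.sf v hvγ
      omega
    rcases hcase with hv3 | hv3
    · -- local letters
      obtain ⟨hc2, h27⟩ := hcan.lc v hvγ hv3
      have hv0 : v ≠ 0 := by omega
      -- all letters of the main block are multiple
      have hmul : ∀ a ∈ γ, ∀ w : List ℕ, γ.count a ≤ w.count a →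
          2 ≤ (Am P ++ (w ++ 2 :: Am Q)).count a := by
        intro a ha w hw
        by_cases ha3 : a % 3 = 0
        · have := (hcan.lc a ha ha3).1
          rw [List.count_append, List.count_append]
          omega
        · have ha1 : a % 3 = 1 := by
            have := hcan.sf a ha
            omega
          obtain ⟨i, hi, rfl⟩ := hcan.ps a ha ha1
          have h1 := hcan.pl i hi
          rw [List.mem_append] at hi
          rw [List.count_append, List.count_append]
          rcases hi with hi | hi
          · have : 1 ≤ (Am P).count (3 * i + 1) :=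
              List.count_pos_iff.mpr (mem_am.mpr ⟨i, hi, Or.inl rfl⟩)
            omega
          · have : 1 ≤ (2 :: Am Q).count (3 * i + 1) :=
              List.count_pos_iff.mpr (List.mem_cons_of_mem _ (mem_am.mpr ⟨i, hi, Or.inl rfl⟩))
            omega
      by_cases hvg : v ∈ g2
      · -- first occurrence
        obtain ⟨ga, gb, hg2, _⟩ := List.eq_append_cons_of_mem hvg
        have h1 : RR β ((Am P ++ g1) ++ 0 :: v :: ([0] ++ 0 :: (ga ++ v :: (gb ++ 2 :: Am Q))))
            ((Am P ++ g1) ++ v :: 0 :: ([0] ++ 0 :: (ga ++ v :: (gb ++ 2 :: Am Q)))) := by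
          apply hc.ff
          intro a ha
          have haγ : a ∈ γ := hp'.mem_iff.mp (by rw [hg2]; simp [ha])
          have h2 := hmul a haγ (g1 ++ (v :: g2)) (by rw [hp'.count_eq])
          refine h2.trans ?_
          rw [hg2]
          have ha0 := (h0γ a haγ).1
          have e1 : (Am P ++ g1 ++ 0 :: v :: ([0] ++ 0 :: (ga ++ v :: (gb ++ 2 :: Am Q)))).count a =
              (Am P).count a + g1.count a + [v].count a + ga.count a + [v].count a + gb.count a +
                (2 :: Am Q).count a := by
            rw [show Am P ++ g1 ++ 0 :: v :: ([0] ++ 0 :: (ga ++ v :: (gb ++ 2 :: Am Q))) =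
              Am P ++ (g1 ++ (0 :: ([v] ++ (0 :: (0 :: (ga ++ ([v] ++ (gb ++ 2 :: Am Q))))))))
                by simp]
            rw [List.count_append, List.count_append, List.count_cons_of_ne ha0.symm,
              List.count_append, List.count_cons_of_ne ha0.symm, List.count_cons_of_ne ha0.symm,
              List.count_append, List.count_append, List.count_append]
            ring
          have e2 : (Am P ++ (g1 ++ v :: (ga ++ v :: gb) ++ 2 :: Am Q)).count a =
              (Am P).count a + g1.count a + [v].count a + ga.count a + [v].count a + gb.count a +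
                (2 :: Am Q).count a := by
            rw [show Am P ++ (g1 ++ v :: (ga ++ v :: gb) ++ 2 :: Am Q) =
              Am P ++ (g1 ++ ([v] ++ (ga ++ ([v] ++ (gb ++ 2 :: Am Q))))) by simp]
            rw [List.count_append, List.count_append, List.count_append, List.count_append,
              List.count_append, List.count_append]
            ring
          rw [e1, e2]
        have h2 := hS (Am P ++ g1) (ga ++ v :: (gb ++ 2 :: Am Q)) (by simp)
        rw [hg2]
        rw [show ga ++ v :: gb ++ 2 :: Am Q = ga ++ v :: (gb ++ 2 :: Am Q) by simp]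
        exact β.trans h1.symm h2
      · -- second occurrence
        have hvg1 : v ∈ g1 := by
          by_contra hcon
          rw [List.count_eq_zero.mpr hvg, List.count_eq_zero.mpr hcon] at hcnt
          omega
        obtain ⟨ga, gb, hg1⟩ := List.append_of_mem hvg1
        have hvp : v ∈ Am P ++ g1 := List.mem_append_right _ hvg1
        have h1 := (ctx β).2.1 hc.s2 (Am P ++ g1) (0 :: 0 :: (g2 ++ 2 :: Am Q)) v 0 hvp (by simp)
        have h2 := (ctx β).2.1 hc.s2 (Am P ++ g1 ++ [0]) (0 :: (g2 ++ 2 :: Am Q)) v 0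
          (List.mem_append_left _ hvp) (by simp)
        have h3 : RR β ((Am P ++ ga) ++ v :: (gb ++ 0 :: ([0] ++ v :: 0 :: (g2 ++ 2 :: Am Q))))
            ((Am P ++ ga) ++ v :: (gb ++ 0 :: ([0] ++ 0 :: v :: (g2 ++ 2 :: Am Q)))) := by
          apply hc.zz
          intro a ha
          have haγ : a ∈ γ := hp'.mem_iff.mp (by rw [hg1]; simp [ha])
          have h2 := hmul a haγ (g1 ++ (v :: g2)) (by rw [hp'.count_eq])
          refine h2.trans ?_
          rw [hg1]
          have ha0 := (h0γ a haγ).1
          have e1 : (Am P ++ ga ++ v :: (gb ++ 0 :: ([0] ++ v :: 0 :: (g2 ++ 2 :: Am Q)))).count a =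
              (Am P).count a + ga.count a + [v].count a + gb.count a + [v].count a + g2.count a +
                (2 :: Am Q).count a := by
            rw [show Am P ++ ga ++ v :: (gb ++ 0 :: ([0] ++ v :: 0 :: (g2 ++ 2 :: Am Q))) =
              Am P ++ (ga ++ ([v] ++ (gb ++ (0 :: (0 :: ([v] ++ (0 :: (g2 ++ 2 :: Am Q))))))))
                by simp]
            rw [List.count_append, List.count_append, List.count_append, List.count_append,
              List.count_cons_of_ne ha0.symm, List.count_cons_of_ne ha0.symm,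
              List.count_append, List.count_cons_of_ne ha0.symm, List.count_append]
            ring
          have e2 : (Am P ++ (ga ++ v :: gb ++ v :: g2 ++ 2 :: Am Q)).count a =
              (Am P).count a + ga.count a + [v].count a + gb.count a + [v].count a + g2.count a +
                (2 :: Am Q).count a := by
            rw [show Am P ++ (ga ++ v :: gb ++ v :: g2 ++ 2 :: Am Q) =
              Am P ++ (ga ++ ([v] ++ (gb ++ ([v] ++ (g2 ++ 2 :: Am Q))))) by simp]
            rw [List.count_append, List.count_append, List.count_append, List.count_append,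
              List.count_append, List.count_append]
            ring
          rw [e1, e2]
        rw [show Am P ++ g1 ++ [0] ++ v :: 0 :: 0 :: (g2 ++ 2 :: Am Q) =
            Am P ++ g1 ++ 0 :: v :: 0 :: 0 :: (g2 ++ 2 :: Am Q) by simp,
          show Am P ++ g1 ++ [0] ++ 0 :: v :: 0 :: (g2 ++ 2 :: Am Q) =
            Am P ++ g1 ++ 0 :: 0 :: v :: 0 :: (g2 ++ 2 :: Am Q) by simp] at h2
        rw [show Am P ++ ga ++ v :: (gb ++ 0 :: ([0] ++ v :: 0 :: (g2 ++ 2 :: Am Q))) =
            Am P ++ g1 ++ 0 :: 0 :: v :: 0 :: (g2 ++ 2 :: Am Q) by rw [hg1]; simp,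
          show Am P ++ ga ++ v :: (gb ++ 0 :: ([0] ++ 0 :: v :: (g2 ++ 2 :: Am Q))) =
            Am P ++ g1 ++ 0 :: 0 :: 0 :: v :: (g2 ++ 2 :: Am Q) by rw [hg1]; simp] at h3
        exact β.trans h1 (β.trans h2 h3)
    · -- passive letters
      obtain ⟨i, hi, rfl⟩ := hcan.ps v hvγ hv3
      have hcv := hcan.pl i hi
      rw [List.mem_append] at hi
      rcases hi with hi | hi
      · exact cb_ctx hcb _ (List.mem_append_left _ (mem_am.mpr ⟨i, hi, Or.inl rfl⟩))
      · have hnd := hcan.nd
        have hiP : i ∉ P := fun h => (List.disjoint_of_nodup_append hnd) h hi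
        have hQnd := (List.nodup_append.1 hnd).2.1
        have h1 := RR.filter (pf (3 * i + 1)) hU
        have hg : g1.count (3 * i + 1) = 0 ∧ g2.count (3 * i + 1) = 0 := by
          constructor <;> omega
        have f1 : g1.filter (pf (3 * i + 1)) = [] := by
          apply filter_nil_of
          intro c hc'
          have hcγ : c ∈ γ := hp'.mem_iff.mp (by simp [hc'])
          exact ⟨(h0γ c hcγ).1, fun h => List.count_eq_zero.mp hg.1 (by rw [← h]; exact hc'), (h0γ c hcγ).2⟩
        have f2 : g2.filter (pf (3 * i + 1)) = [] := by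
          apply filter_nil_of
          intro c hc'
          have hcγ : c ∈ γ := hp'.mem_iff.mp (by simp [hc'])
          exact ⟨(h0γ c hcγ).1, fun h => List.count_eq_zero.mp hg.2 (by rw [← h]; exact hc'), (h0γ c hcγ).2⟩
        have f3 : γ.filter (pf (3 * i + 1)) = [3 * i + 1] := by
          obtain ⟨a, b, hab⟩ := List.append_of_mem hvγ
          have hab' : a.count (3 * i + 1) = 0 ∧ b.count (3 * i + 1) = 0 := by
            rw [hab, List.count_append, List.count_cons_self] at hcv
            constructor <;> omega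
          rw [hab, List.filter_append, List.filter_cons_of_pos (by unfold pf; simp)]
          rw [filter_nil_of (l := a) (fun c hc' => ⟨(h0γ c (by rw [hab]; simp [hc'])).1,
              fun h => List.count_eq_zero.mp hab'.1 (by rw [← h]; exact hc'), (h0γ c (by rw [hab]; simp [hc'])).2⟩),
            filter_nil_of (l := b) (fun c hc' => ⟨(h0γ c (by rw [hab]; simp [hc'])).1,
              fun h => List.count_eq_zero.mp hab'.2 (by rw [← h]; exact hc'), (h0γ c (by rw [hab]; simp [hc'])).2⟩)]
          rfl
        have p0 : pf (3 * i + 1) 0 = true := by unfold pf; simp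
        have p2 : pf (3 * i + 1) 2 = true := by unfold pf; simp
        have pv : pf (3 * i + 1) (3 * i + 1) = true := by unfold pf; simp
        rw [wm_eq, wm_eq] at h1
        simp only [List.filter_append, List.filter_cons, p0, p2, pv, if_true, f1, f2, f3,
          filter_am hiP, filter_am_mem hQnd hi, List.filter_nil, List.nil_append,
          List.cons_append, List.append_nil] at h1
        -- `0 v 0 0 2 v ≈ v 0 0 0 2 v`
        have h2 : RR β (0 :: 0 :: 0 :: (3 * i + 1) :: [2, 3 * i + 1])
            ((3 * i + 1) :: 0 :: 0 :: 0 :: [2, 3 * i + 1]) :=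
          β.trans (RR.symm (hS [] [2, 3 * i + 1] (by simp))) h1
        obtain ⟨q1, q2, hq⟩ := List.append_of_mem (show (3 * i + 1) ∈ g2 ++ 2 :: Am Q by
          exact List.mem_append_right _ (List.mem_cons_of_mem _ (mem_am.mpr ⟨i, hi, Or.inl rfl⟩)))
        have h3 := RR.sub (fun c => if c = 2 then q1 else [c]) h2
        have h4 := RR.append (RR.refl (Am P ++ g1)) (RR.append h3 (RR.refl q2))
        rw [hq]
        have n2 : (3 * i + 1) ≠ 2 := by omega
        simp only [List.flatMap_cons, List.flatMap_nil, if_true, n2, if_false,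
          (show (0 : ℕ) ≠ 2 by norm_num), List.append_nil, List.cons_append, List.nil_append,
          List.append_assoc] at h4
        simp only [List.append_assoc] at h4 ⊢
        exact h4.symm

end Pool.Agent.MVD.H39
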