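import Pool.Agent.MVD.StmtsLoc

/-!
# Squad MVD, row TRG (helper39)
-/

set_option autoImplicit false

namespace Pool.Agent.MVD.H39

open Pool.Agent.MVD Pool.Agent.Helper14_MV Pool.Agent.Helper2_MV

variable {β : FIC}

/-- a middle occurrence of `y` commutes with a multiple letter -/
theorem mv_one (ctx : CtxStmt) (h2 : S2 β) {p q : List ℕ} {y z : ℕ} (hp : y ∈ p) (hq : y ∈ q)
    (hz : z ∈ p ∨ z ∈ q) : RR β (p ++ y :: z :: q) (p ++ z :: y :: q) := by
  rcases hz with hz | hz
  · exact ((ctx β).2.1 h2 p q z y hz hq).symm
  · exact (ctx β).2.1 h2 p q y z hp hz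

theorem mv_over (ctx : CtxStmt) (h2 : S2 β) {y : ℕ} : ∀ (F p q : List ℕ), y ∈ p → y ∈ q →
    (∀ z ∈ F, 2 ≤ (p ++ (F ++ q)).count z ∨ z = y) →
      RR β (p ++ y :: (F ++ q)) (p ++ (F ++ y :: q)) := by
  intro F
  induction F with
  | nil => intro p q _ _ _; exact RR.refl _
  | cons z F ih =>
    intro p q hp hq h
    have h1 : RR β (p ++ y :: z :: (F ++ q)) (p ++ z :: y :: (F ++ q)) := by
      rcases h z List.mem_cons_self with h3 | h3
      · apply mv_one ctx h2 hp (List.mem_append_right _ hq)
        by_contra hcon
        rw [not_or] at hcon
        have e : (p ++ (z :: F ++ q)).count z = p.count z + ((F ++ q).count z + 1) := by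
          rw [List.count_append, List.cons_append, List.count_cons_self]
        rw [e, List.count_eq_zero.mpr hcon.1, List.count_eq_zero.mpr hcon.2] at h3
        omega
      · rw [h3]
        exact RR.refl _
    have h4 := ih (p ++ [z]) q (List.mem_append_left _ hp) hq (by
      intro a ha
      have h5 := h a (List.mem_cons_of_mem _ ha)
      rw [show p ++ [z] ++ (F ++ q) = p ++ (z :: F ++ q) by simp]
      exact h5)
    rw [show p ++ [z] ++ y :: (F ++ q) = p ++ z :: y :: (F ++ q) by simp,
      show p ++ [z] ++ (F ++ y :: q) = p ++ (z :: F ++ y :: q) by simp] at h4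
    exact β.trans h1 h4

/-- gathering of the middle occurrences of `y` on the right -/
theorem gather (ctx : CtxStmt) (h2 : S2 β) {y : ℕ} : ∀ (A p q : List ℕ), y ∈ p → y ∈ q →
    (∀ z ∈ A, 2 ≤ (p ++ (A ++ q)).count z ∨ z = y) →
      RR β (p ++ (A ++ q)) (p ++ (A.filter (fun a => decide (a ≠ y)) ++
        (List.replicate (A.count y) y ++ q))) := by
  intro A
  induction A with
  | nil => intro p q _ _ _; exact RR.refl _
  | cons z A ih =>
    intro p q hp hq h
    have h4 := ih (p ++ [z]) q (List.mem_append_left _ hp) hq (by
      intro a ha
      have h5 := h a (List.mem_cons_of_mem _ ha)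
      rw [show p ++ [z] ++ (A ++ q) = p ++ (z :: A ++ q) by simp]
      exact h5)
    rw [show p ++ [z] ++ (A ++ q) = p ++ (z :: A ++ q) by simp] at h4
    refine β.trans h4 ?_
    by_cases hzy : z = y
    · subst hzy
      rw [List.filter_cons_of_neg (by simp), List.count_cons_self, List.replicate_succ]
      have h6 := mv_over ctx h2 (y := z) (A.filter (fun a => decide (a ≠ z))) p
        (List.replicate (A.count z) z ++ q) hp (List.mem_append_right _ hq) (by
          intro a ha
          rw [List.mem_filter, decide_eq_true_iff] at ha
          rcases h a (List.mem_cons_of_mem _ ha.1) with h5 | h5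
          · left
            refine h5.trans (le_of_eq ?_)
            rw [List.count_append, List.count_append, List.count_append, List.count_append,
              List.count_append, List.count_filter (by rw [decide_eq_true_iff]; exact ha.2),
              List.count_cons_of_ne (fun h => ha.2 h.symm), List.count_replicate,
              if_neg (by rw [beq_iff_eq]; exact fun h => ha.2 h.symm)]
            ring
          · exact Or.inr h5)
      rw [show p ++ [z] ++ (A.filter (fun a => decide (a ≠ z)) ++
        (List.replicate (A.count z) z ++ q)) = p ++ z :: (A.filter (fun a => decide (a ≠ z)) ++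
        (List.replicate (A.count z) z ++ q)) by simp]
      exact h6
    · rw [List.filter_cons_of_pos (by rw [decide_eq_true_iff]; exact hzy),
        List.count_cons_of_ne hzy]
      rw [show p ++ [z] ++ (A.filter (fun a => decide (a ≠ y)) ++
        (List.replicate (A.count y) y ++ q)) = p ++ (z :: A.filter (fun a => decide (a ≠ y)) ++
        (List.replicate (A.count y) y ++ q)) by simp]
      exact RR.refl _

theorem trg (gfk : GfkStmt) (ctx : CtxStmt) : TrgStmt := by
  intro β h2 hgf p c q x y hyc hyp hyq hxq hM hx hy
  by_cases hxy : x = y
  · subst hxy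
    exact RR.refl _
  obtain ⟨c1, c2, hc, hyc1⟩ := List.eq_append_cons_of_mem hyc
  subst hc
  set d : List ℕ := c2.filter (fun a => decide (a ≠ y)) with hd
  set n : ℕ := c2.count y with hn
  have hyd : y ∉ d := by
    rw [hd, List.mem_filter, decide_eq_true_iff]
    exact fun h => h.2 rfl
  have hn1 : 1 ≤ n := by
    have e : (p ++ (c1 ++ y :: c2 ++ x :: y :: q)).count y = n + 2 := by
      rw [List.count_append, List.count_append, List.count_append, List.count_cons_self,
        List.count_cons_of_ne hxy, List.count_cons_self, List.count_eq_zero.mpr hyp,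
        List.count_eq_zero.mpr hyc1, List.count_eq_zero.mpr hyq]
      omega
    rw [e] at hy
    omega
  have hcnt : ∀ a, a ≠ y → (p ++ (c1 ++ y :: c2 ++ x :: y :: q)).count a =
      p.count a + c1.count a + c2.count a + [x].count a + q.count a := by
    intro a ha
    rw [List.count_append, List.count_append, List.count_append,
      List.count_cons_of_ne (fun h => ha h.symm), show x :: y :: q = [x] ++ y :: q from rfl,
      List.count_append, List.count_cons_of_ne (fun h => ha h.symm)]
    ring
  have hrep : ∀ a, a ≠ y → ∀ m, (List.replicate m y).count a = 0 := by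
    intro a ha m
    rw [List.count_replicate, if_neg (by rw [beq_iff_eq]; exact fun h => ha h.symm)]
  have hdc : ∀ a, a ≠ y → d.count a = c2.count a := by
    intro a ha
    rw [hd, List.count_filter (by rw [decide_eq_true_iff]; exact ha)]
  have hxx : [x].count x = 1 := by simp
  -- left word
  have a1 : RR β (p ++ (c1 ++ y :: c2 ++ x :: y :: q))
      ((p ++ c1) ++ y :: ((d ++ [x]) ++ (List.replicate (n + 1) y ++ q))) := by
    have h3 := gather (β := β) ctx h2 (y := y) (c2 ++ [x]) (p ++ (c1 ++ [y])) (y :: q)
      (by simp) List.mem_cons_self (by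
        intro z hz
        by_cases hzy : z = y
        · exact Or.inr hzy
        · left
          rw [show p ++ (c1 ++ [y]) ++ (c2 ++ [x] ++ y :: q) = p ++ (c1 ++ y :: c2 ++ x :: y :: q)
            by simp]
          rw [List.mem_append, List.mem_singleton] at hz
          rcases hz with hz | hz
          · exact hM z (by simp [hz])
          · rw [hz]
            exact hx)
    have e1 : (c2 ++ [x]).filter (fun a => decide (a ≠ y)) = d ++ [x] := by
      rw [List.filter_append, List.filter_cons_of_pos (by rw [decide_eq_true_iff]; exact hxy),
        List.filter_nil]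
    have e2 : (c2 ++ [x]).count y = n := by
      rw [List.count_append, List.count_cons_of_ne hxy, List.count_nil]
      rfl
    rw [e1, e2] at h3
    rw [show p ++ (c1 ++ [y]) ++ (c2 ++ [x] ++ y :: q) = p ++ (c1 ++ y :: c2 ++ x :: y :: q)
      by simp, show p ++ (c1 ++ [y]) ++ (d ++ [x] ++ (List.replicate n y ++ y :: q)) =
        (p ++ c1) ++ y :: ((d ++ [x]) ++ (List.replicate (n + 1) y ++ q)) by
          rw [List.replicate_succ']
          simp] at h3
    exact h3
  have a2 : RR β ((p ++ c1) ++ y :: ((d ++ [x]) ++ (List.replicate (n + 1) y ++ q)))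
      ((p ++ c1) ++ (List.replicate (n + 2) y ++ ((d ++ [x]) ++ q))) := by
    have h3 := gfk β h2 (d ++ [x]).length (hgf _) (p ++ c1) (d ++ [x]) q y (n + 2) (by omega)
      le_rfl (by
        rw [List.mem_append, List.mem_singleton]
        rintro (h | h)
        · exact hyd h
        · exact hxy h.symm) (by
        intro a ha
        have hay : a ≠ y := by
          rintro rfl
          rw [List.mem_append, List.mem_singleton] at ha
          rcases ha with ha | ha
          · exact hyd ha
          · exact hxy ha.symm
        have h5 : 2 ≤ (p ++ (c1 ++ y :: c2 ++ x :: y :: q)).count a := by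
          rw [List.mem_append, List.mem_singleton] at ha
          rcases ha with ha | ha
          · rw [hd, List.mem_filter] at ha
            exact hM a (by simp [ha.1])
          · rw [ha]
            exact hx
        rw [hcnt a hay] at h5
        rw [List.count_append, List.count_cons_of_ne (fun h => hay h.symm), List.count_append,
          List.count_append, List.count_append, List.count_append, hrep a hay, hdc a hay]
        omega)
    exact h3
  -- right word
  have b1 : RR β (p ++ (c1 ++ y :: c2 ++ y :: x :: q))
      ((p ++ c1) ++ y :: (d ++ (List.replicate (n + 1) y ++ x :: q))) := by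
    have h3 := gather (β := β) ctx h2 (y := y) c2 (p ++ (c1 ++ [y])) (y :: x :: q)
      (by simp) List.mem_cons_self (by
        intro z hz
        by_cases hzy : z = y
        · exact Or.inr hzy
        · left
          have h5 := hM z (by simp [hz])
          rw [hcnt z hzy] at h5
          rw [show p ++ (c1 ++ [y]) ++ (c2 ++ y :: x :: q) = p ++ (c1 ++ (y :: (c2 ++ (y ::
            ([x] ++ q))))) by simp, List.count_append, List.count_append,
            List.count_cons_of_ne (fun h => hzy h.symm), List.count_append,
            List.count_cons_of_ne (fun h => hzy h.symm), List.count_append]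
          omega)
    rw [show p ++ (c1 ++ [y]) ++ (c2 ++ y :: x :: q) = p ++ (c1 ++ y :: c2 ++ y :: x :: q)
      by simp, show p ++ (c1 ++ [y]) ++ (c2.filter (fun a => decide (a ≠ y)) ++
        (List.replicate (c2.count y) y ++ y :: x :: q)) =
        (p ++ c1) ++ y :: (d ++ (List.replicate (n + 1) y ++ x :: q)) by
          rw [List.replicate_succ', ← hd, ← hn]
          simp] at h3
    exact h3
  have b2 : RR β ((p ++ c1) ++ y :: (d ++ (List.replicate (n + 1) y ++ x :: q)))
      ((p ++ c1) ++ (List.replicate (n + 2) y ++ (d ++ x :: q))) := by
    have h3 := gfk β h2 d.length (hgf _) (p ++ c1) d (x :: q) y (n + 2) (by omega)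
      le_rfl hyd (by
        intro a ha
        have hay : a ≠ y := by
          rintro rfl
          exact hyd ha
        have h5 : 2 ≤ (p ++ (c1 ++ y :: c2 ++ x :: y :: q)).count a := by
          rw [hd, List.mem_filter] at ha
          exact hM a (by simp [ha.1])
        rw [hcnt a hay] at h5
        rw [List.count_append, List.count_cons_of_ne (fun h => hay h.symm), List.count_append,
          List.count_append, List.count_append, hrep a hay, hdc a hay,
          show x :: q = [x] ++ q from rfl, List.count_append]
        omega)
    exact h3
  have e3 : (p ++ c1) ++ (List.replicate (n + 2) y ++ ((d ++ [x]) ++ q)) =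
      (p ++ c1) ++ (List.replicate (n + 2) y ++ (d ++ x :: q)) := by simp
  rw [e3] at a2
  exact β.trans (β.trans a1 a2) (RR.symm (β.trans b1 b2))

end Pool.Agent.MVD.H39
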